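import Pool.Agent.Helper56.NB.Defs

/-!
# Good subrings: purity, Noetherianity, faithful flatness, primes
-/

open scoped TensorProduct

namespace Pool.Agent.Helper56.NB

universe u

theorem GoodSub.pure {C : Type u} [CommRing C] {C₀ : Subring C} (h : GoodSub C₀)
    (m n : ℕ) (a : Fin m → Fin n → C₀) (b : Fin m → C₀)
    (hx : ∃ x : Fin n → C, ∀ i, ∑ j, (a i j : C) * x j = b i) :
    ∃ z : Fin n → C₀, ∀ i, ∑ j, a i j * z j = b i := by
  classical
  obtain ⟨x, hx⟩ := hx
  let t : Fin m → MvPolynomial (Fin n) C₀ := fun i =>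
    ∑ j, MvPolynomial.C (a i j) * MvPolynomial.X j - MvPolynomial.C (b i)
  obtain ⟨z, hz, -⟩ := h.sol n (Finset.univ.image t) ∅ ∅ x (by
    intro t' ht'
    rw [Finset.mem_image] at ht'
    obtain ⟨i, -, rfl⟩ := ht'
    have : MvPolynomial.aeval x (t i) = 0 := by
      simp only [t, map_sub, map_sum, map_mul, MvPolynomial.aeval_X, MvPolynomial.aeval_C]
      rw [sub_eq_zero]
      exact hx i
    rw [this]
    exact Ideal.zero_mem _) (by simp)
  refine ⟨z, fun i => ?_⟩
  have h1 := hz (t i) (Finset.mem_image_of_mem _ (Finset.mem_univ i))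
  simp only [Finset.coe_empty, Ideal.span_empty, Ideal.map_bot, Ideal.mem_bot] at h1
  have h2 : MvPolynomial.aeval z (t i) = 0 := by
    apply Subtype.coe_injective
    simpa using h1
  simp only [t, map_sub, map_sum, map_mul, MvPolynomial.aeval_X, MvPolynomial.aeval_C] at h2
  rw [sub_eq_zero] at h2
  exact h2

/-- an element of the extension of an ideal is a combination of finitely many elements -/
theorem exists_comb {A B : Type*} [CommRing A] [CommRing B] (f : A →+* B) (I : Ideal A) (c : B)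
    (hc : c ∈ I.map f) : ∃ (n : ℕ) (b : Fin n → A) (x : Fin n → B), (∀ j, b j ∈ I) ∧
      c = ∑ j, f (b j) * x j := by
  rw [Ideal.map] at hc
  refine Submodule.span_induction ?_ ?_ ?_ ?_ hc
  · rintro y ⟨b, hb, rfl⟩
    exact ⟨1, fun _ => b, fun _ => 1, fun _ => hb, by simp⟩
  · exact ⟨0, Fin.elim0, Fin.elim0, fun j => j.elim0, by simp⟩
  · rintro y z - - ⟨n, b, x, hb, rfl⟩ ⟨m, b', x', hb', rfl⟩
    refine ⟨n + m, Fin.append b b', Fin.append x x', ?_, ?_⟩
    · intro j
      refine Fin.addCases (fun i => ?_) (fun i => ?_) j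
      · rw [Fin.append_left]; exact hb i
      · rw [Fin.append_right]; exact hb' i
    · simp [Fin.sum_univ_add]
  · rintro r y - ⟨n, b, x, hb, rfl⟩
    refine ⟨n, b, fun j => r * x j, hb, ?_⟩
    rw [smul_eq_mul, Finset.mul_sum]
    exact Finset.sum_congr rfl fun j _ => by ring

theorem GoodSub.mem_of_mem_map {C : Type u} [CommRing C] [IsNoetherianRing C] {C₀ : Subring C}
    (h : GoodSub C₀) (I : Ideal C₀) (c : C₀) (hc : algebraMap C₀ C c ∈ I.map (algebraMap C₀ C)) :
    c ∈ I := by
  obtain ⟨n, b, x, hb, hx⟩ := exists_comb _ I _ hc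
  obtain ⟨z, hz⟩ := h.pure 1 n (fun _ => b) (fun _ => c) ⟨x, fun _ => hx.symm⟩
  rw [← hz 0]
  exact Ideal.sum_mem _ fun j _ => Ideal.mul_mem_right _ _ (hb j)

theorem GoodSub.noeth {C : Type u} [CommRing C] [IsNoetherianRing C] {C₀ : Subring C}
    (h : GoodSub C₀) : IsNoetherianRing C₀ := by
  classical
  rw [isNoetherianRing_iff_ideal_fg]
  intro I
  have h1 : (I.map (algebraMap C₀ C)).FG := IsNoetherian.noetherian _
  obtain ⟨s, hs, hs'⟩ := (Submodule.fg_span_iff_fg_span_finset_subset _).1 h1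
  -- lift the finset
  obtain ⟨t, ht, hts⟩ : ∃ t : Finset C₀, (t : Set C₀) ⊆ I ∧ t.image (algebraMap C₀ C) = s := by
    have := Finset.subset_set_image_iff.1 hs
    obtain ⟨t, ht, hts⟩ := this
    exact ⟨t, ht, hts⟩
  refine ⟨t, le_antisymm (Ideal.span_le.2 ht) ?_⟩
  intro c hc
  apply h.mem_of_mem_map
  have h2 : (Ideal.span (t : Set C₀)).map (algebraMap C₀ C) = I.map (algebraMap C₀ C) := by
    rw [Ideal.map_span]
    conv_rhs => rw [Ideal.map]
    have h3 : (algebraMap C₀ C) '' (t : Set C₀) = (s : Set C) := by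
      rw [← hts, Finset.coe_image]
    rw [h3]
    exact hs'.symm
  rw [h2]
  exact Ideal.mem_map_of_mem _ hc

theorem GoodSub.flat {C : Type u} [CommRing C] {C₀ : Subring C}
    (h : GoodSub C₀) : Module.Flat C₀ C := by
  rw [Module.Flat.iff_forall_isTrivialRelation]
  intro l f x hfx
  obtain ⟨k, y, c, hy, hx⟩ := h.ker l f x (by
    have : ∑ j, f j • x j = 0 := hfx
    exact this)
  refine ⟨k, fun i j => y j i, c, ?_, ?_⟩
  · intro i
    rw [hx i]
    exact Finset.sum_congr rfl fun j _ => by rw [Algebra.smul_def, mul_comm]; rfl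
  · intro j
    exact hy j

theorem GoodSub.faithfullyFlat {C : Type u} [CommRing C] [IsNoetherianRing C] {C₀ : Subring C}
    (h : GoodSub C₀) : Module.FaithfullyFlat C₀ C := by
  have := h.flat
  refine ⟨fun {m} hm hmt => ?_⟩
  have h1 : m.map (algebraMap C₀ C) = ⊤ := by
    rw [eq_top_iff]
    intro c _
    have h2 : c ∈ m • (⊤ : Submodule C₀ C) := by rw [hmt]; trivial
    refine Submodule.smul_induction_on h2 ?_ ?_
    · intro r hr n _
      rw [Algebra.smul_def]
      exact Ideal.mul_mem_right _ _ (Ideal.mem_map_of_mem _ hr)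
    · intro x y hx hy
      exact Ideal.add_mem _ hx hy
  apply hm.ne_top
  rw [Ideal.eq_top_iff_one]
  apply h.mem_of_mem_map
  rw [h1]
  trivial

theorem GoodSub.prime {C : Type u} [CommRing C] [IsNoetherianRing C] {C₀ : Subring C}
    (h : GoodSub C₀) (p : Ideal C₀) (hp : p.IsPrime) : (p.map (algebraMap C₀ C)).IsPrime := by
  classical
  refine ⟨?_, ?_⟩
  · intro htop
    apply hp.ne_top
    rw [Ideal.eq_top_iff_one]
    apply h.mem_of_mem_map
    rw [htop]
    trivial
  · intro x y hxy
    by_contra hcon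
    push Not at hcon
    obtain ⟨hx, hy⟩ := hcon
    have := h.noeth
    obtain ⟨B, hB⟩ := (isNoetherianRing_iff_ideal_fg C₀).1 this p
    obtain ⟨z, hz, hz'⟩ := h.sol 2 {MvPolynomial.X 0 * MvPolynomial.X 1}
      {MvPolynomial.X 0, MvPolynomial.X 1} B ![x, y] (by
        intro t ht
        rw [Finset.mem_singleton] at ht
        subst ht
        have hB' : Ideal.span (B : Set C₀) = p := hB
        rw [hB']
        simpa using hxy) (by
        intro g hg
        have hB' : Ideal.span (B : Set C₀) = p := hB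
        rw [hB']
        rw [Finset.mem_insert, Finset.mem_singleton] at hg
        rcases hg with rfl | rfl
        · simpa using hx
        · simpa using hy)
    have hB' : Ideal.span (B : Set C₀) = p := hB
    rw [hB'] at hz hz'
    have h1 := h.mem_of_mem_map p _ (hz _ (Finset.mem_singleton_self _))
    have h2 := hz' (MvPolynomial.X 0) (by simp)
    have h3 := hz' (MvPolynomial.X 1) (by simp)
    simp only [map_mul, MvPolynomial.aeval_X] at h1 h2 h3
    rcases hp.mem_or_mem h1 with h4 | h4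
    · exact h2 (Ideal.mem_map_of_mem _ h4)
    · exact h3 (Ideal.mem_map_of_mem _ h4)

end Pool.Agent.Helper56.NB
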